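import Pool.Agent.H43.TC.Targets

/-!
# PAT: profiles of periodic colourings
-/

set_option autoImplicit false

namespace Pool.Agent.H65.TC

open Pool.Agent.H43.TC

private lemma transport {k t : ℕ} {N N' : ℕ} [NeZero N] [NeZero N']
    (h : N = N') {D : ℝ} {P : ℝ → ℝ → Prop} (H : ∃ c : Tor k N → Bool, dens c true = D ∧
      P (mono c true t) (mono c false t)) :
    ∃ c : Tor k N' → Bool, dens c true = D ∧ P (mono c true t) (mono c false t) := by
  subst h
  exact H

theorem pat (hMIX : T_MIX) : T_PAT := by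
  intro k n t _ i₀ c ε hε n₀
  obtain ⟨M', hM'⟩ := exists_nat_gt ((4 * t + 2 : ℝ) / ε)
  have hn : 1 ≤ n := NeZero.one_le
  set M : ℕ := M' + n₀ + 3 with hMdef
  have : NeZero M := ⟨by omega⟩
  have hM3 : n₀ + 3 ≤ n * M := by nlinarith
  obtain ⟨c', hd, hm⟩ := hMIX k n M M t i₀ le_rfl c c
  have hMpos : (0 : ℝ) < M := by exact_mod_cast (by omega : 0 < M)
  have hMM : (M / M : ℝ) = 1 := div_self hMpos.ne'
  have hsmall : (4 * t + 2 : ℝ) / (n * M : ℝ) < ε := by
    have hpos : (0 : ℝ) < (n * M : ℝ) := mul_pos (by exact_mod_cast hn) hMpos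
    rw [div_lt_iff₀ hpos]
    have h1 : (4 * t + 2 : ℝ) < M' * ε := by rwa [div_lt_iff₀ hε] at hM'
    have h2 : (M' : ℝ) ≤ n * M := by
      have : M' ≤ n * M := by nlinarith
      exact_mod_cast this
    calc (4 * t + 2 : ℝ) < M' * ε := h1
      _ ≤ (n * M) * ε := mul_le_mul_of_nonneg_right h2 hε.le
      _ = ε * (n * M) := mul_comm _ _
  obtain ⟨n₁, hn₁⟩ : ∃ n₁, n * M = n₁ + 3 := ⟨n * M - 3, by omega⟩
  have key : ∃ c'' : Tor k (n₁ + 3) → Bool, dens c'' true = dens c true ∧
      (fun R B : ℝ => |R - mono c true t| < ε ∧ |B - mono c false t| < ε)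
        (mono c'' true t) (mono c'' false t) := by
    refine transport (N := n * M) (D := dens c true)
      (P := fun R B : ℝ => |R - mono c true t| < ε ∧ |B - mono c false t| < ε) hn₁
      ⟨c', ?_, ?_, ?_⟩
    · rw [hd, hMM]; ring
    · have := hm true
      rw [hMM, one_mul, sub_self, zero_mul, add_zero] at this
      exact lt_of_le_of_lt this hsmall
    · have := hm false
      rw [hMM, one_mul, sub_self, zero_mul, add_zero] at this
      exact lt_of_le_of_lt this hsmall
  obtain ⟨c'', h1, h2, h3⟩ := key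
  exact ⟨n₁, c'', by omega, h1, h2, h3⟩

end Pool.Agent.H65.TC
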