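import Pool.Agent.H43.TC.Targets

/-!
# ZON: sums over a slab
-/

set_option autoImplicit false

namespace Pool.Agent.H65.TC

open Pool.Agent.H43.TC

private def zeq (n M : ℕ) [NeZero n] [NeZero M] : ZMod (n * M) ≃ ZMod n × Fin M where
  toFun u := (ZMod.castHom (Dvd.intro M rfl) (ZMod n) u,
    ⟨u.val / n, Nat.div_lt_of_lt_mul (ZMod.val_lt u)⟩)
  invFun p := ((p.1.val + n * p.2.val : ℕ) : ZMod (n * M))
  left_inv u := by
    show (((ZMod.castHom (Dvd.intro M rfl) (ZMod n) u).val + n * (u.val / n) : ℕ) :
      ZMod (n * M)) = u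
    have h1 : (ZMod.castHom (Dvd.intro M rfl) (ZMod n) u).val = u.val % n := by
      rw [ZMod.castHom_apply, ZMod.cast_eq_val, ZMod.val_natCast]
    rw [h1, Nat.mod_add_div, ZMod.natCast_zmod_val]
  right_inv p := by
    obtain ⟨r, q⟩ := p
    have hr : r.val < n := ZMod.val_lt r
    have hlt : r.val + n * q.val < n * M := by
      have h2 : n * (q.val + 1) ≤ n * M := Nat.mul_le_mul_left n q.isLt
      rw [mul_add, mul_one] at h2
      omega
    refine Prod.ext ?_ (Fin.ext ?_)
    · show ZMod.castHom (Dvd.intro M rfl) (ZMod n) ((r.val + n * q.val : ℕ) : ZMod (n * M)) = r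
      rw [map_natCast]
      push_cast
      simp
    · show ((r.val + n * q.val : ℕ) : ZMod (n * M)).val / n = q.val
      rw [ZMod.val_natCast, Nat.mod_eq_of_lt hlt, Nat.add_mul_div_left _ _ (NeZero.pos n),
        Nat.div_eq_of_lt hr, zero_add]

private lemma card_slab (k M l : ℕ) (i₀ : Fin k) (hl : l ≤ M) :
    (Finset.univ.filter (fun q : Fin k → Fin M => (q i₀).val < l)).card = l * M ^ (k - 1) := by
  classical
  have h1 : (Finset.univ.filter (fun q : Fin k → Fin M => (q i₀).val < l)) =
      Fintype.piFinset (fun i => if i = i₀ then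
        (Finset.univ.filter (fun a : Fin M => a.val < l)) else Finset.univ) := by
    ext q
    rw [Fintype.mem_piFinset]
    simp only [Finset.mem_filter, Finset.mem_univ, true_and]
    constructor
    · intro h i
      by_cases hi : i = i₀
      · subst hi; simpa using h
      · simp [hi]
    · intro h
      have := h i₀
      simpa using this
  have h2 : (Finset.univ.filter (fun a : Fin M => a.val < l)).card = l := by
    have : (Finset.univ.filter (fun a : Fin M => a.val < l)) =
        (Finset.univ : Finset (Fin l)).map (Fin.castLEEmb hl) := by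
      ext a
      simp only [Finset.mem_filter, Finset.mem_univ, true_and, Finset.mem_map]
      constructor
      · intro h
        exact ⟨⟨a.val, h⟩, by ext; simp⟩
      · rintro ⟨b, rfl⟩
        simp
    rw [this, Finset.card_map, Finset.card_univ, Fintype.card_fin]
  rw [h1, Fintype.card_piFinset, ← Finset.mul_prod_erase _ _ (Finset.mem_univ i₀), if_pos rfl,
    h2]
  congr 1
  rw [Finset.prod_congr rfl (g := fun _ => M), Finset.prod_const,
    Finset.card_erase_of_mem (Finset.mem_univ i₀), Finset.card_univ, Fintype.card_fin]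
  intro i hi
  rw [if_neg (Finset.ne_of_mem_erase hi), Finset.card_univ, Fintype.card_fin]

theorem zon : T_ZON := by
  intro k n M l _ _ i₀ hl g
  have hE := Equiv.sum_comp ((Equiv.arrowCongr (Equiv.refl (Fin k)) (zeq n M)).trans
    (Equiv.arrowProdEquivProdArrow (Fin k) (fun _ => ZMod n) (fun _ => Fin M)))
    (fun p : (Fin k → ZMod n) × (Fin k → Fin M) => if (p.2 i₀).val < l then g p.1 else 0)
  have hL : ∀ x : Tor k (n * M), (if (x i₀).val < n * l then g (red n M x) else 0) =
      (fun p : (Fin k → ZMod n) × (Fin k → Fin M) => if (p.2 i₀).val < l then g p.1 else 0)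
      (((Equiv.arrowCongr (Equiv.refl (Fin k)) (zeq n M)).trans
        (Equiv.arrowProdEquivProdArrow (Fin k) (fun _ => ZMod n) (fun _ => Fin M))) x) := by
    intro x
    show _ = if (x i₀).val / n < l then g (red n M x) else 0
    have hv : ∀ v : ℕ, (v < n * l ↔ v / n < l) := fun v => by
      rw [Nat.div_lt_iff_lt_mul (NeZero.pos n), mul_comm]
    have : ((x i₀).val < n * l ↔ (x i₀).val / n < l) := hv _
    simp only [this]
  rw [Finset.sum_congr rfl fun x _ => hL x, hE, Fintype.sum_prod_type]
  simp only
  have h3 : ∀ y : Fin k → ZMod n, ∑ q : Fin k → Fin M, (if (q i₀).val < l then g y else 0) =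
      l * M ^ (k - 1) * g y := by
    intro y
    rw [← Finset.sum_filter, Finset.sum_const, card_slab k M l i₀ hl, smul_eq_mul]
  rw [Finset.sum_congr rfl fun y _ => h3 y, ← Finset.mul_sum]

end Pool.Agent.H65.TC
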